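import Pool.Agent.W440.Leh.Sum

set_option autoImplicit false

/-!
# The product of `p / (p - 1)` over primes `p` with `p - 1` supported on a given set of primes
-/

open Finset

namespace Pool.Agent.W440.Leh

theorem sm_iff {W m : ℕ} : sm W m = true ↔ m % 2 = 0 ∧ W % m = 0 := by
  unfold sm
  simp

theorem bound (W B r u c T : ℕ) (S P : Finset ℕ) (C : ℝ)
    (hS : ∀ s ∈ S, s.Prime) (hW : W ≠ 0)
    (hWS : ∀ m, m ∣ W → m ∈ Nat.factoredNumbers S)
    (hsm : ∀ m ∈ Nat.factoredNumbers S, m < B → m ∣ W)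
    (hC : (2 : ℝ)⁻¹ * ∏ s ∈ S, (1 - (s : ℝ)⁻¹)⁻¹ ≤ C)
    (hP : ∀ p ∈ P, p.Prime ∧ 5 ≤ p ∧ p ≠ r ∧ (p - 1) ∈ Nat.factoredNumbers S)
    (hqr : ∀ p ∈ P, p ≤ u + 1 → qr p c = true)
    (hT : C * 10 ^ 9 ≤ T + sumLo W B) :
    ∏ p ∈ P, (1 + ((p : ℝ) - 1)⁻¹) ≤ (prodHi W B r u c : ℝ) / 10 ^ 9 * Real.exp (T / 10 ^ 9) := by
  classical
  set f : ℕ → ℝ := fun m => (m : ℝ)⁻¹ with hf
  have hcast : ∀ p ∈ P, ((p : ℝ) - 1)⁻¹ = f (p - 1) := by
    intro p hp
    have := (hP p hp).1.one_lt
    simp only [hf]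
    rw [Nat.cast_sub (by omega)]
    simp
  have hinj : Set.InjOn (fun p => p - 1) (P : Set ℕ) := by
    intro a ha b hb hab
    have h1 := (hP a ha).1.one_lt
    have h2 := (hP b hb).1.one_lt
    simp only at hab
    omega
  have heven : ∀ p ∈ P, (p - 1) % 2 = 0 := by
    intro p hp
    have h1 := (hP p hp).1.eq_two_or_odd
    have h2 := (hP p hp).2.1
    omega
  set P1 := P.filter (fun p => p - 1 < B) with hP1
  set P2 := P.filter (fun p => ¬ (p - 1 < B)) with hP2
  have hsplit : ∏ p ∈ P, (1 + ((p : ℝ) - 1)⁻¹) =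
      (∏ p ∈ P1, (1 + f (p - 1))) * ∏ p ∈ P2, (1 + f (p - 1)) := by
    rw [hP1, hP2, Finset.prod_filter_mul_prod_filter_not]
    exact Finset.prod_congr rfl fun p hp => by rw [hcast p hp]
  have hfn : ∀ m, 0 ≤ f m := fun m => by simp only [hf]; positivity
  -- small primes
  have hA : (∏ p ∈ P1, (1 + f (p - 1))) ≤ (prodHi W B r u c : ℝ) / 10 ^ 9 := by
    have e1 : ∏ p ∈ P1, (1 + f (p - 1)) = ∏ m ∈ P1.image (fun p => p - 1), (1 + f m) := by
      rw [Finset.prod_image]
      intro a ha b hb hab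
      exact hinj (Finset.mem_of_mem_filter a ha) (Finset.mem_of_mem_filter b hb) hab
    have e2 : P1.image (fun p => p - 1) ⊆ ((List.range B).filter (keep W r u c)).toFinset := by
      intro m hm
      obtain ⟨p, hp, rfl⟩ := Finset.mem_image.1 hm
      obtain ⟨hpP, hpB⟩ := Finset.mem_filter.1 hp
      obtain ⟨h1, h2, h3, h4⟩ := hP p hpP
      have h5 : p - 1 + 1 = p := by have := h1.one_lt; omega
      rw [List.mem_toFinset, List.mem_filter, List.mem_range]
      refine ⟨hpB, ?_⟩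
      unfold keep
      rw [h5]
      have k1 : sm W (p - 1) = true :=
        sm_iff.2 ⟨heven p hpP, Nat.mod_eq_zero_of_dvd (hsm _ h4 hpB)⟩
      have k2 : decide (4 ≤ p - 1) = true := decide_eq_true (by omega)
      have k3 : (p != r) = true := by simpa using h3
      have k4 : (decide (u < p - 1) || qr p c) = true := by
        rw [Bool.or_eq_true]
        by_cases h : u < p - 1
        · left; exact decide_eq_true h
        · right; exact hqr p hpP (by omega)
      rw [k1, pt_prime h1, k2, k3, k4]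
      rfl
    have e3 := prod_mono_subset (f := fun m => 1 + f m) e2
      (fun k _ => by linarith [hfn k])
    rw [List.prod_toFinset _ (List.nodup_range.filter _)] at e3
    have e4 := foldl_prod_ge ((List.range B).filter (keep W r u c)) (10 ^ 9)
    rw [e1, le_div_iff₀ (by norm_num)]
    refine le_trans (mul_le_mul_of_nonneg_right e3 (by norm_num)) ?_
    have e5 : ((10 ^ 9 : ℕ) : ℝ) = 10 ^ 9 := by norm_num
    rw [e5, mul_comm] at e4
    exact e4
  -- large primes
  have hB : (∏ p ∈ P2, (1 + f (p - 1))) ≤ Real.exp (T / 10 ^ 9) := by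
    refine le_trans (prod_le_exp P2 (fun p => f (p - 1)) (fun p _ => hfn _)) ?_
    rw [Real.exp_le_exp]
    set M := ((List.range B).filter (sm W)).toFinset with hM
    have e1 : ∑ p ∈ P2, f (p - 1) = ∑ m ∈ P2.image (fun p => p - 1), f m := by
      rw [Finset.sum_image]
      intro a ha b hb hab
      exact hinj (Finset.mem_of_mem_filter a ha) (Finset.mem_of_mem_filter b hb) hab
    have e2 : Disjoint (P2.image (fun p => p - 1)) M := by
      rw [Finset.disjoint_left]
      intro m hm hm2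
      obtain ⟨p, hp, rfl⟩ := Finset.mem_image.1 hm
      have h1 := (Finset.mem_filter.1 hp).2
      rw [hM, List.mem_toFinset, List.mem_filter, List.mem_range] at hm2
      exact h1 hm2.1
    have e3 : ∑ m ∈ P2.image (fun p => p - 1) ∪ M, f m ≤ C := by
      refine le_trans (sum_factored_mul S _ 2 (by norm_num) hS ?_) (by exact_mod_cast hC)
      intro m hm
      rcases Finset.mem_union.1 hm with hm | hm
      · obtain ⟨p, hp, rfl⟩ := Finset.mem_image.1 hm
        have hpP := (Finset.mem_filter.1 hp).1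
        exact ⟨Nat.dvd_of_mod_eq_zero (heven p hpP), (hP p hpP).2.2.2⟩
      · rw [hM, List.mem_toFinset, List.mem_filter, List.mem_range] at hm
        obtain ⟨h1, h2⟩ := sm_iff.1 hm.2
        exact ⟨Nat.dvd_of_mod_eq_zero h1, hWS m (Nat.dvd_of_mod_eq_zero h2)⟩
    rw [Finset.sum_union e2] at e3
    have e4 : ∑ m ∈ M, f m = (((List.range B).filter (sm W)).map f).sum := by
      rw [hM]
      exact List.sum_toFinset _ (List.nodup_range.filter _)
    have e5 := foldl_sum_le (10 ^ 9) ((List.range B).filter (sm W)) 0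
    have e6 : (sumLo W B : ℝ) ≤ 10 ^ 9 * ∑ m ∈ M, f m := by
      rw [e4]
      have : ((sumLo W B : ℕ) : ℝ) ≤ ((0 : ℕ) : ℝ) + ((10 ^ 9 : ℕ) : ℝ) *
          (((List.range B).filter (sm W)).map f).sum := e5
      push_cast at this
      linarith
    rw [e1, le_div_iff₀ (by norm_num)]
    nlinarith
  rw [hsplit]
  refine mul_le_mul hA hB (Finset.prod_nonneg fun p _ => by linarith [hfn (p - 1)]) ?_
  positivity

/-- `exp t ≤ 1 + t + 3 t ^ 2 / 4` on `[0, 1]` -/
theorem exp_le_quad {t : ℝ} (h0 : 0 ≤ t) (h1 : t ≤ 1) : Real.exp t ≤ 1 + t + 3 * t ^ 2 / 4 := by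
  have h := Real.exp_bound' h0 h1 (n := 2) (by norm_num)
  refine le_trans h (le_of_eq ?_)
  simp [Finset.sum_range_succ, Nat.factorial]
  ring

/-- membership in the set of integers supported on the primes of `W0`, below `2 ^ e` -/
theorem dvd_pow_of_factored {S : Finset ℕ} {W0 e m : ℕ} (hW0 : W0 ≠ 0)
    (hdvd : ∀ s ∈ S, s ∣ W0) (hm : m ∈ Nat.factoredNumbers S) (hlt : m < 2 ^ e) : m ∣ W0 ^ e := by
  have hm0 : m ≠ 0 := Nat.ne_zero_of_mem_factoredNumbers hm
  rw [← Nat.factorization_prime_le_iff_dvd hm0 (pow_ne_zero _ hW0)]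
  intro p hp
  by_cases hpm : p ∣ m
  · have h1 : p ∈ S := by
      have := Nat.primeFactors_subset_of_mem_factoredNumbers hm
      exact this (Nat.mem_primeFactors.2 ⟨hp, hpm, hm0⟩)
    have h2 : p ∣ W0 := hdvd p h1
    have h3 : 1 ≤ W0.factorization p := (hp.dvd_iff_one_le_factorization hW0).1 h2
    have h4 : m.factorization p ≤ e := by
      refine Nat.factorization_le_of_le_pow ?_
      exact le_trans hlt.le (Nat.pow_le_pow_left hp.two_le e)
    rw [Nat.factorization_pow]
    simp only [Finsupp.smul_apply, smul_eq_mul]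
    nlinarith
  · rw [Nat.factorization_eq_zero_of_not_dvd hpm]
    exact Nat.zero_le _

theorem factored_of_dvd_pow {S : Finset ℕ} {W0 e m : ℕ} (hW0 : W0 ∈ Nat.factoredNumbers S)
    (hm : m ∣ W0 ^ e) : m ∈ Nat.factoredNumbers S := by
  refine Nat.mem_factoredNumbers_of_dvd ?_ hm
  rw [Nat.mem_factoredNumbers'] at hW0 ⊢
  intro p hp hpe
  exact hW0 p hp (hp.dvd_of_dvd_pow hpe)

end Pool.Agent.W440.Leh
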