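import Pool.Agent.W440.Leh.Three

set_option autoImplicit false

/-!
# Lehmer numbers `n` with `3 ∤ n - 1`, and the logarithmic bound for the quotient
-/

open Finset

namespace Pool.Agent.W440.Leh

open Pool.Agent.H95R2.Leh (Leh leh_basic leh_k)

/-- the sum over the even integers that are `1` modulo `3` -/
theorem two_class (S Q : Finset ℕ) (hS : ∀ s ∈ S, s.Prime) (h2 : 2 ∈ S)
    (hQ : ∀ m ∈ Q, 2 ∣ m ∧ m ∈ Nat.factoredNumbers S ∧ m % 3 = 1) :
    ∑ m ∈ Q, (m : ℝ)⁻¹ ≤ (∏ s ∈ S, (1 - (s : ℝ)⁻¹)⁻¹ - 1) / 3 := by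
  classical
  have h2f : 2 ∈ Nat.factoredNumbers S := by
    rw [Nat.mem_factoredNumbers']
    intro p hp hp2
    rwa [(Nat.prime_dvd_prime_iff_eq hp Nat.prime_two).1 hp2]
  set Q2 := insert 2 (Q.image (fun m : ℕ => 2 * m)) with hQ2
  have e1 : 2 ∉ Q.image (fun m : ℕ => 2 * m) := by
    intro h
    obtain ⟨m, hm, hm2⟩ := Finset.mem_image.1 h
    have h1 := (hQ m hm).1
    have : m = 1 := by omega
    rw [this] at h1
    omega
  have e2 : ∑ m ∈ Q2, (m : ℝ)⁻¹ = 2⁻¹ + 2⁻¹ * ∑ m ∈ Q, (m : ℝ)⁻¹ := by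
    rw [hQ2, Finset.sum_insert e1, Finset.sum_image (by intro a _ b _ h; simpa using h),
      Finset.mul_sum]
    congr 1
    refine Finset.sum_congr rfl fun m _ => ?_
    push_cast
    rw [mul_inv]
  have e3 : Disjoint Q Q2 := by
    rw [Finset.disjoint_left]
    intro m hm hm2
    have h1 := (hQ m hm).2.2
    rw [hQ2, Finset.mem_insert] at hm2
    rcases hm2 with h | h
    · rw [h] at h1; omega
    · obtain ⟨m', hm', rfl⟩ := Finset.mem_image.1 h
      have h3 := (hQ m' hm').2.2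
      omega
  have e4 := sum_factored_mul S (Q ∪ Q2) 2 (by norm_num) hS (by
    intro m hm
    rcases Finset.mem_union.1 hm with h | h
    · exact ⟨(hQ m h).1, (hQ m h).2.1⟩
    · rw [hQ2, Finset.mem_insert] at h
      rcases h with h | h
      · rw [h]; exact ⟨dvd_rfl, h2f⟩
      · obtain ⟨m', hm', rfl⟩ := Finset.mem_image.1 h
        exact ⟨dvd_mul_right _ _, Nat.mul_mem_factoredNumbers h2f (hQ m' hm').2.1⟩)
  rw [Finset.sum_union e3, e2] at e4
  push_cast at e4
  linarith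

/-- the factor of a prime -/
noncomputable def g (s : ℕ) : ℝ := (1 - (s : ℝ)⁻¹)⁻¹

theorem g_pos {s : ℕ} (hs : 2 ≤ s) : 0 < g s := by
  unfold g
  have h1 : (2 : ℝ) ≤ s := by exact_mod_cast hs
  have h2 : (s : ℝ)⁻¹ ≤ 2⁻¹ := inv_anti₀ (by norm_num) h1
  apply inv_pos.2
  linarith

theorem one_le_g {s : ℕ} (hs : 2 ≤ s) : 1 ≤ g s := by
  unfold g
  have h1 : (2 : ℝ) ≤ s := by exact_mod_cast hs
  have h2 : (s : ℝ)⁻¹ ≤ 2⁻¹ := inv_anti₀ (by norm_num) h1
  have h3 : 0 < (s : ℝ)⁻¹ := inv_pos.2 (by linarith)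
  exact (one_le_inv₀ (by linarith)).2 (by linarith)

theorem g_anti {s t : ℕ} (hs : 2 ≤ s) (hst : s ≤ t) : g t ≤ g s := by
  unfold g
  have h1 : (2 : ℝ) ≤ s := by exact_mod_cast hs
  have h2 : (s : ℝ) ≤ t := by exact_mod_cast hst
  have h3 : (s : ℝ)⁻¹ ≤ 2⁻¹ := inv_anti₀ (by norm_num) h1
  have h4 : (t : ℝ)⁻¹ ≤ (s : ℝ)⁻¹ := inv_anti₀ (by linarith) h2
  exact inv_anti₀ (by linarith) (by linarith)

theorem rearr (S L : Finset ℕ) (M : ℕ) (hM : 2 ≤ M) (hL : ∀ l ∈ L, 2 ≤ l ∧ l ≤ M)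
    (hS : ∀ s ∈ S, 2 ≤ s ∧ (s ≤ M → s ∈ L)) (hcard : S.card ≤ L.card) :
    ∏ s ∈ S, g s ≤ ∏ l ∈ L, g l := by
  classical
  have c1 := Finset.card_sdiff_add_card_inter S L
  have c2 := Finset.card_sdiff_add_card_inter L S
  rw [Finset.inter_comm L S] at c2
  have c3 : (S \ L).card ≤ (L \ S).card := by omega
  have h1 : ∏ s ∈ S \ L, g s ≤ g M ^ (S \ L).card := by
    rw [← Finset.prod_const]
    refine Finset.prod_le_prod ?_ ?_
    · intro s hs
      exact (g_pos (hS s (Finset.mem_sdiff.1 hs).1).1).le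
    · intro s hs
      obtain ⟨hs1, hs2⟩ := Finset.mem_sdiff.1 hs
      refine g_anti hM ?_
      by_contra hcon
      push Not at hcon
      exact hs2 ((hS s hs1).2 hcon.le)
  have h2 : g M ^ (L \ S).card ≤ ∏ l ∈ L \ S, g l := by
    rw [← Finset.prod_const]
    refine Finset.prod_le_prod ?_ ?_
    · intro l _
      exact (g_pos hM).le
    · intro l hl
      obtain ⟨h3, h4⟩ := hL l (Finset.mem_sdiff.1 hl).1
      exact g_anti h3 h4
  have h3 : g M ^ (S \ L).card ≤ g M ^ (L \ S).card := pow_le_pow_right₀ (one_le_g hM) c3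
  have h4 : 0 ≤ ∏ s ∈ S ∩ L, g s :=
    Finset.prod_nonneg fun s hs => (g_pos (hS s (Finset.mem_inter.1 hs).1).1).le
  have e1 : (∏ s ∈ S ∩ L, g s) * ∏ s ∈ S \ L, g s = ∏ s ∈ S, g s :=
    Finset.prod_inter_mul_prod_sdiff S L g
  have e2 : (∏ s ∈ L ∩ S, g s) * ∏ s ∈ L \ S, g s = ∏ s ∈ L, g s :=
    Finset.prod_inter_mul_prod_sdiff L S g
  rw [← e1, ← e2, Finset.inter_comm L S]
  exact mul_le_mul_of_nonneg_left (le_trans h1 (le_trans h3 h2)) h4

theorem prod5 : ∏ l ∈ ({5, 7, 11, 13, 17, 19, 23, 29, 31, 37, 41} : Finset ℕ), g l ≤ 23 / 10 := by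
  unfold g
  repeat rw [Finset.prod_insert (by decide)]
  rw [Finset.prod_singleton]
  norm_num

theorem prod7 : ∏ l ∈ ({7, 11, 13, 17, 19, 23, 29, 31, 37, 41, 43} : Finset ℕ), g l ≤ 19 / 10 := by
  unfold g
  repeat rw [Finset.prod_insert (by decide)]
  rw [Finset.prod_singleton]
  norm_num

theorem exp_bd : Real.exp (19 / 20) < 8 / 3 := by
  have h1 := Real.exp_one_lt_d9
  have h2 : Real.exp (19 / 20) * Real.exp (1 / 20) = Real.exp 1 := by
    rw [← Real.exp_add]; norm_num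
  have h3 : (1 / 20 : ℝ) + 1 ≤ Real.exp (1 / 20) := Real.add_one_le_exp _
  have h4 := Real.exp_pos (19 / 20 : ℝ)
  nlinarith

theorem nothree {n : ℕ} (hL : Leh n) (h3 : ¬ 3 ∣ n - 1) : 13 ≤ (n - 1).primeFactors.card := by
  classical
  by_contra hcard
  push Not at hcard
  obtain ⟨k, hk2, hk, _⟩ := leh_k hL
  have hsq := (leh_basic hL).1
  have hodd := (leh_basic hL).2.1
  have hn1 := hL.1
  have hF := lt_prod hsq hn1 hk
  have hn0 : n - 1 ≠ 0 := by omega
  set S := (n - 1).primeFactors with hS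
  set P := n.primeFactors with hP
  have hSp : ∀ s ∈ S, s.Prime := fun s hs => Nat.prime_of_mem_primeFactors hs
  have h2S : 2 ∈ S := by
    rw [hS, Nat.mem_primeFactors]
    refine ⟨Nat.prime_two, ?_, hn0⟩
    obtain ⟨a, ha⟩ := hodd
    exact ⟨a, by omega⟩
  have h3S : 3 ∉ S := fun h => h3 (Nat.dvd_of_mem_primeFactors h)
  -- the primes of `n`
  have hp1 : ∀ p ∈ P, p ≠ 2 ∧ p - 1 ∈ Nat.factoredNumbers S ∧ 2 ∣ p - 1 ∧ p ∉ S := by
    intro p hp
    have hpp := Nat.prime_of_mem_primeFactors hp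
    have hpn := Nat.dvd_of_mem_primeFactors hp
    have h2 : p ≠ 2 := by
      rintro rfl
      rw [← Nat.not_even_iff_odd] at hodd
      exact hodd (even_iff_two_dvd.2 hpn)
    have h4 := hpp.eq_two_or_odd
    have h5 := hpp.two_le
    refine ⟨h2, ?_, by omega, fun h => not_dvd_sub_one hL hpp hpn (Nat.dvd_of_mem_primeFactors h)⟩
    rw [Nat.mem_factoredNumbers_iff_primeFactors_subset]
    exact ⟨by omega, Nat.primeFactors_mono (sub_one_dvd hL hp) hn0⟩
  have hp3 : ∀ p ∈ P.erase 3, (p - 1) % 3 = 1 := by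
    intro p hp
    obtain ⟨hp3, hpP⟩ := Finset.mem_erase.1 hp
    have hpp := Nat.prime_of_mem_primeFactors hpP
    have h4 : ¬ 3 ∣ p := by
      intro h
      exact hp3 ((Nat.prime_dvd_prime_iff_eq Nat.prime_three hpp).1 h).symm
    have h5 : ¬ 3 ∣ p - 1 := fun h => h3 (dvd_trans h (sub_one_dvd hL hpP))
    have := hpp.two_le
    omega
  -- `k` is `1` modulo `3`
  have hprod : (∏ p ∈ P.erase 3, (p - 1)) % 3 = 1 := by
    refine Finset.prod_induction (fun p => p - 1) (fun x => x % 3 = 1) ?_ (by norm_num) hp3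
    intro a b ha hb
    rw [Nat.mul_mod, ha, hb]
  have hk3 : k % 3 = 1 := by
    have hφ := totient_eq hsq
    rw [← hP] at hφ
    by_cases h : 3 ∈ P
    · rw [← Finset.mul_prod_erase P _ h] at hφ
      have h5 : 3 ∣ n := Nat.dvd_of_mem_primeFactors h
      have h6 : n.totient % 3 = 2 := by
        rw [hφ, Nat.mul_mod, hprod]
      have h7 : (k * n.totient) % 3 = (k % 3 * 2) % 3 := by rw [Nat.mul_mod, h6]
      rw [← hk] at h7
      omega
    · have hprod' := hprod
      rw [Finset.erase_eq_of_notMem h] at hprod'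
      have h5 : ¬ 3 ∣ n := fun h5 => h (Nat.mem_primeFactors.2 ⟨Nat.prime_three, h5, by omega⟩)
      have h6 : n.totient % 3 = 1 := by rw [hφ, hprod']
      have h7 : (k * n.totient) % 3 = (k % 3 * 1) % 3 := by rw [Nat.mul_mod, h6]
      rw [← hk] at h7
      omega
  have hk4 : 4 ≤ k := by omega
  -- the sum over the primes other than `3`
  set Q := (P.erase 3).image (fun p : ℕ => (p - 1 : ℕ)) with hQ
  have hQm : ∀ m ∈ Q, 2 ∣ m ∧ m ∈ Nat.factoredNumbers S ∧ m % 3 = 1 := by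
    intro m hm
    obtain ⟨p, hp, rfl⟩ := Finset.mem_image.1 hm
    obtain ⟨_, a, b, _⟩ := hp1 p (Finset.mem_of_mem_erase hp)
    exact ⟨b, a, hp3 p hp⟩
  have hsumeq : ∑ p ∈ P.erase 3, ((p : ℝ) - 1)⁻¹ = ∑ m ∈ Q, ((m : ℕ) : ℝ)⁻¹ := by
    rw [hQ, Finset.sum_image]
    · refine Finset.sum_congr rfl fun p hp => ?_
      have h1 := (Nat.prime_of_mem_primeFactors (Finset.mem_of_mem_erase hp)).one_lt
      rw [Nat.cast_sub h1.le]
      simp
    · intro a ha b hb hab
      have h1 := (Nat.prime_of_mem_primeFactors (Finset.mem_of_mem_erase ha)).one_lt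
      have h2 := (Nat.prime_of_mem_primeFactors (Finset.mem_of_mem_erase hb)).one_lt
      simp only at hab
      omega
  have hPS : ∏ s ∈ S, (1 - (s : ℝ)⁻¹)⁻¹ = 2 * ∏ s ∈ S.erase 2, g s := by
    rw [← Finset.mul_prod_erase S _ h2S]
    unfold g
    norm_num
  have hS5 : ∀ s ∈ S.erase 2, 5 ≤ s ∧ s.Prime := by
    intro s hs
    obtain ⟨h4, h5⟩ := Finset.mem_erase.1 hs
    have h6 := hSp s h5
    have h7 := h6.two_le
    have h8 : s ≠ 3 := fun h => h3S (h ▸ h5)
    have h9 : s ≠ 4 := by rintro rfl; exact absurd h6 (by norm_num)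
    exact ⟨by omega, h6⟩
  have hScard : (S.erase 2).card ≤ 11 := by
    rw [Finset.card_erase_of_mem h2S]
    omega
  have hsum : ∑ m ∈ Q, ((m : ℕ) : ℝ)⁻¹ ≤ 19 / 20 := by
    by_cases h5 : 5 ∈ S
    · have h4Q : 4 ∉ Q := by
        intro h
        obtain ⟨p, hp, hp4⟩ := Finset.mem_image.1 h
        obtain ⟨_, _, _, b⟩ := hp1 p (Finset.mem_of_mem_erase hp)
        have h6 : p = 5 := by omega
        exact b (h6 ▸ h5)
      have h1 := two_class S (insert 4 Q) hSp h2S (by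
        intro m hm
        rcases Finset.mem_insert.1 hm with h | h
        · rw [h]
          refine ⟨by norm_num, ?_, by norm_num⟩
          rw [Nat.mem_factoredNumbers']
          intro p hp hp2
          rw [show 4 = 2 ^ 2 by norm_num] at hp2
          rwa [(Nat.prime_dvd_prime_iff_eq hp Nat.prime_two).1 (hp.dvd_of_dvd_pow hp2)]
        · exact hQm m h)
      rw [Finset.sum_insert h4Q, hPS] at h1
      have h6 : ∏ s ∈ S.erase 2, g s ≤ 23 / 10 := by
        refine le_trans (rearr _ {5, 7, 11, 13, 17, 19, 23, 29, 31, 37, 41} 41 (by norm_num)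
          (by decide) ?_ (by simpa using hScard)) prod5
        intro s hs
        obtain ⟨h7, h8⟩ := hS5 s hs
        refine ⟨by omega, fun h9 => ?_⟩
        interval_cases s <;> first | decide | (exfalso; revert h8; norm_num)
      push_cast at h1
      linarith
    · have h1 := two_class S Q hSp h2S hQm
      rw [hPS] at h1
      have h6 : ∏ s ∈ S.erase 2, g s ≤ 19 / 10 := by
        refine le_trans (rearr _ {7, 11, 13, 17, 19, 23, 29, 31, 37, 41, 43} 43 (by norm_num)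
          (by decide) ?_ (by simpa using hScard)) prod7
        intro s hs
        obtain ⟨h7, h8⟩ := hS5 s hs
        have h10 : s ≠ 5 := fun h => h5 (h ▸ Finset.mem_of_mem_erase hs)
        refine ⟨by omega, fun h9 => ?_⟩
        interval_cases s <;> first | exact absurd rfl h10 | decide | (exfalso; revert h8; norm_num)
      linarith
  -- conclusion
  have hpos : ∀ p ∈ P, 0 ≤ ((p : ℝ) - 1)⁻¹ := by
    intro p hp
    have h1 := (Nat.prime_of_mem_primeFactors hp).one_lt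
    have h2 : (1 : ℝ) < p := by exact_mod_cast h1
    exact inv_nonneg.2 (by linarith)
  have h1 := prod_le_exp (P.erase 3) (fun p => ((p : ℝ) - 1)⁻¹)
    (fun p hp => hpos p (Finset.mem_of_mem_erase hp))
  rw [hsumeq] at h1
  have h2 : Real.exp (∑ m ∈ Q, ((m : ℕ) : ℝ)⁻¹) ≤ Real.exp (19 / 20) := Real.exp_le_exp.2 hsum
  have h4 : ∏ p ∈ P, (1 + ((p : ℝ) - 1)⁻¹) ≤
      3 / 2 * ∏ p ∈ P.erase 3, (1 + ((p : ℝ) - 1)⁻¹) := by
    have h5 : 0 ≤ ∏ p ∈ P.erase 3, (1 + ((p : ℝ) - 1)⁻¹) :=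
      Finset.prod_nonneg fun p hp => by linarith [hpos p (Finset.mem_of_mem_erase hp)]
    by_cases h : 3 ∈ P
    · rw [← Finset.mul_prod_erase P _ h]
      apply le_of_eq
      norm_num
    · rw [Finset.erase_eq_of_notMem h] at h5 ⊢
      linarith
  have h5 := exp_bd
  have hk4' : (4 : ℝ) ≤ k := by exact_mod_cast hk4
  linarith

/-- the logarithmic bound for the quotient `(n - 1) / φ(n)` -/
theorem log_quot {n k : ℕ} (hL : Leh n) (hk : n - 1 = k * n.totient) :
    (k : ℝ) < Real.exp (((n : ℝ) - 1) / (2 * (n - 1).totient)) := by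
  classical
  have hsq := (leh_basic hL).1
  have hodd := (leh_basic hL).2.1
  have hn1 := hL.1
  have hF := lt_prod hsq hn1 hk
  have hn0 : n - 1 ≠ 0 := by omega
  refine lt_of_lt_of_le hF ?_
  have hpos : ∀ p ∈ n.primeFactors, 0 ≤ ((p : ℝ) - 1)⁻¹ := by
    intro p hp
    have h1 := (Nat.prime_of_mem_primeFactors hp).one_lt
    have h2 : (1 : ℝ) < p := by exact_mod_cast h1
    exact inv_nonneg.2 (by linarith)
  refine le_trans (prod_le_exp _ _ hpos) ?_
  rw [Real.exp_le_exp]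
  have hsumeq : ∑ p ∈ n.primeFactors, ((p : ℝ) - 1)⁻¹ =
      ∑ m ∈ n.primeFactors.image (fun p : ℕ => (p - 1 : ℕ)), ((m : ℕ) : ℝ)⁻¹ := by
    rw [Finset.sum_image]
    · refine Finset.sum_congr rfl fun p hp => ?_
      have h1 := (Nat.prime_of_mem_primeFactors hp).one_lt
      rw [Nat.cast_sub h1.le]
      simp
    · intro a ha b hb hab
      have h1 := (Nat.prime_of_mem_primeFactors ha).one_lt
      have h2 := (Nat.prime_of_mem_primeFactors hb).one_lt
      simp only at hab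
      omega
  rw [hsumeq]
  refine le_trans (sum_factored_mul (n - 1).primeFactors _ 2 (by norm_num)
    (fun s hs => Nat.prime_of_mem_primeFactors hs) ?_) ?_
  · intro m hm
    obtain ⟨p, hp, rfl⟩ := Finset.mem_image.1 hm
    have hpp := Nat.prime_of_mem_primeFactors hp
    have hpn := Nat.dvd_of_mem_primeFactors hp
    have h2 : p ≠ 2 := by
      rintro rfl
      rw [← Nat.not_even_iff_odd] at hodd
      exact hodd (even_iff_two_dvd.2 hpn)
    have h4 := hpp.eq_two_or_odd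
    have h5 := hpp.two_le
    refine ⟨by omega, ?_⟩
    rw [Nat.mem_factoredNumbers_iff_primeFactors_subset]
    exact ⟨by omega, Nat.primeFactors_mono (sub_one_dvd hL hp) hn0⟩
  · have h1 := Nat.totient_eq_mul_prod_factors (n - 1)
    have h2 : (((n - 1).totient : ℕ) : ℝ) =
        ((n - 1 : ℕ) : ℝ) * ∏ p ∈ (n - 1).primeFactors, (1 - (p : ℝ)⁻¹) := by
      have := congrArg (fun x : ℚ => (x : ℝ)) h1
      push_cast at this
      exact_mod_cast this
    have h3 : 0 < (n - 1).totient := Nat.totient_pos.2 (by omega)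
    have h3' : (0 : ℝ) < (n - 1).totient := by exact_mod_cast h3
    have h4 : ((n - 1 : ℕ) : ℝ) = (n : ℝ) - 1 := by
      rw [Nat.cast_sub (by omega)]
      simp
    have h5 : (0 : ℝ) < (n : ℝ) - 1 := by
      rw [← h4]
      exact_mod_cast Nat.pos_of_ne_zero hn0
    rw [Finset.prod_inv_distrib]
    set A := ∏ p ∈ (n - 1).primeFactors, (1 - (p : ℝ)⁻¹) with hA
    rw [h4] at h2
    have h6 : A ≠ 0 := by
      intro h
      rw [h, mul_zero] at h2
      linarith
    rw [h2]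
    apply le_of_eq
    push_cast
    field_simp

end Pool.Agent.W440.Leh
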