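import Mathlib

set_option autoImplicit false

/-!
# Numerical checks for the theorem on the prime factors of `n - 1` for Lehmer numbers `n`
-/

namespace Pool.Agent.W440.Leh

/-- `m` is even and divides `W` -/
def sm (W m : ℕ) : Bool := m % 2 == 0 && W % m == 0

/-- primality test by small primes -/
def pt (p : ℕ) : Bool :=
  [2, 3, 5, 7, 11, 13, 17, 19, 23, 29, 31, 37, 41, 43, 47, 53, 59, 61].all
    (fun d => p % d != 0 || p == d)

/-- `-1` is `c` times a square modulo `p` -/
def qr (p c : ℕ) : Bool := (List.range p).any (fun t => (t * t * c + 1) % p == 0)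

/-- the values `m = p - 1` that are kept -/
def keep (W r u c m : ℕ) : Bool :=
  sm W m && pt (m + 1) && decide (4 ≤ m) && m + 1 != r && (decide (u < m) || qr (m + 1) c)

/-- lower bound for `10 ^ 9` times the sum of `1 / m` -/
def sumLo (W B : ℕ) : ℕ := ((List.range B).filter (sm W)).foldl (fun a m => a + 10 ^ 9 / m) 0

/-- upper bound for `10 ^ 9` times the product of `1 + 1 / m` -/
def prodHi (W B r u c : ℕ) : ℕ :=
  ((List.range B).filter (keep W r u c)).foldl (fun a m => a + a / m + 1) (10 ^ 9)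

/-- the check for the support `{2, 3, r}` -/
def chk (W B r u c T : ℕ) : Bool :=
  decide (3 * r * 10 ^ 9 ≤ 2 * (r - 1) * (T + sumLo W B)) && decide (T ≤ 10 ^ 9) &&
    decide (prodHi W B r u c * (4 * 10 ^ 18 + 4 * T * 10 ^ 9 + 3 * T * T) < 8 * 10 ^ 27)

/-- the value of `T` used -/
def tHi (W B r : ℕ) : ℕ := 3 * r * 10 ^ 9 / (2 * (r - 1)) + 1 - sumLo W B

theorem chk_small : ∀ r ∈ [5, 7, 11, 13, 17, 19, 23, 29, 31, 37, 41, 43, 47, 53],
    ∀ x ∈ [0, 1], ∀ y ∈ [0, 1], ∀ z ∈ [0, 1],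
      chk ((6 * r) ^ 10) 1024 r 100 (2 ^ x * 3 ^ y * r ^ z) (tHi ((6 * r) ^ 10) 1024 r) = true := by
  decide +kernel

theorem sumLo_big : sumLo (6 ^ 12) 4096 = 1496790987 := by decide +kernel

theorem prodHi_big : prodHi (6 ^ 12) 4096 0 0 0 = 1932957158 := by decide +kernel

end Pool.Agent.W440.Leh
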