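import Pool.Agent.W440.Leh.Sq

set_option autoImplicit false

/-!
# Lehmer numbers `n` such that `n - 1` is three times a square
-/

open Finset

namespace Pool.Agent.W440.Leh

open Pool.Agent.H95R2.Leh (Leh leh_basic leh_k)

/-- the class `1` modulo `3` -/
def c3 (s : ℕ) : Bool := s % 3 == 1

theorem len3 : (Lc c3 2556).length = 182 := by decide +kernel

theorem val3 : Vc c3 2556 < 2 * 10 ^ 9 := by decide +kernel

theorem thrice_square {n m : ℕ} (hL : Leh n) (h : n - 1 = 3 * m ^ 2) :
    183 ≤ n.primeFactors.card := by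
  classical
  by_contra hcard
  push Not at hcard
  obtain ⟨k, hk2, hk, _⟩ := leh_k hL
  have hn1 := hL.1
  have hodd := (leh_basic hL).2.1
  have hF := lt_prod (leh_basic hL).1 hn1 hk
  rw [prod_g] at hF
  have h2 := class_bound c3 2556 n.primeFactors (by norm_num) (by
    intro p hp
    have hpp := Nat.prime_of_mem_primeFactors hp
    have hpn := Nat.dvd_of_mem_primeFactors hp
    have : Fact p.Prime := ⟨hpp⟩
    have h2 : p ≠ 2 := by
      rintro rfl
      rw [← Nat.not_even_iff_odd] at hodd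
      exact hodd (even_iff_two_dvd.2 hpn)
    have h3 : p ≠ 3 := by
      rintro rfl
      exact not_dvd_sub_one hL Nat.prime_three hpn ⟨m ^ 2, h⟩
    have e1 : (3 * (m : ZMod p) ^ 2) = -1 := by
      have h4 : ((3 * m ^ 2 + 1 : ℕ) : ZMod p) = 0 := by
        rw [← h, show n - 1 + 1 = n by omega]
        exact (ZMod.natCast_eq_zero_iff n p).2 hpn
      push_cast at h4
      exact eq_neg_of_add_eq_zero_left h4
    have h2' : (2 : ZMod p) ≠ 0 := by
      intro h0
      have : ((2 : ℕ) : ZMod p) = 0 := by exact_mod_cast h0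
      rw [ZMod.natCast_eq_zero_iff] at this
      exact h2 ((Nat.prime_dvd_prime_iff_eq hpp Nat.prime_two).1 this)
    have h3' : (3 : ZMod p) ≠ 0 := by
      intro h0
      have : ((3 : ℕ) : ZMod p) = 0 := by exact_mod_cast h0
      rw [ZMod.natCast_eq_zero_iff] at this
      exact h3 ((Nat.prime_dvd_prime_iff_eq hpp Nat.prime_three).1 this)
    obtain ⟨w, hw⟩ : ∃ w : ZMod p, 2 * w = 3 * m - 1 := ⟨(3 * m - 1) / 2, by field_simp⟩
    have e2 : w ^ 2 + w + 1 = 0 := by
      have h4 : (2 : ZMod p) ^ 2 * (w ^ 2 + w + 1) = 0 := by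
        have : (2 : ZMod p) ^ 2 * (w ^ 2 + w + 1) = (2 * w) ^ 2 + 2 * (2 * w) + 4 := by ring
        rw [this, hw]
        have : (3 * (m : ZMod p) - 1) ^ 2 + 2 * (3 * m - 1) + 4 = 3 * (3 * m ^ 2) + 3 := by ring
        rw [this, e1]
        ring
      rcases mul_eq_zero.1 h4 with h5 | h5
      · exact absurd (pow_eq_zero_iff (by norm_num) |>.1 h5) h2'
      · exact h5
    have e3 : w ^ 3 = 1 := by
      have : w ^ 3 - 1 = (w - 1) * (w ^ 2 + w + 1) := by ring
      rw [e2, mul_zero] at this
      exact sub_eq_zero.1 this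
    have e4 : w ≠ 1 := by
      rintro rfl
      apply h3'
      have : (1 : ZMod p) ^ 2 + 1 + 1 = 3 := by ring
      rw [← this]
      exact e2
    have e5 : w ≠ 0 := by
      rintro rfl
      rw [zero_pow (by norm_num)] at e3
      exact zero_ne_one e3
    have : Fact (Nat.Prime 3) := ⟨Nat.prime_three⟩
    have e6 : orderOf w = 3 := orderOf_eq_prime e3 e4
    have e7 := ZMod.orderOf_dvd_card_sub_one e5
    rw [e6] at e7
    have h4 := hpp.two_le
    have h5 : p ≠ 4 := by rintro rfl; exact absurd hpp (by norm_num)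
    refine ⟨hpp, by omega, ?_⟩
    unfold c3
    have h6 : p % 3 = 1 := by omega
    simpa using h6) (by rw [len3]; omega) val3
  have hk2' : (2 : ℝ) ≤ k := by exact_mod_cast hk2
  linarith

end Pool.Agent.W440.Leh
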