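import Pool.Agent.W440.Leh.Num

set_option autoImplicit false

/-!
# Sums of reciprocals over integers supported on a finite set of primes
-/

open Finset

namespace Pool.Agent.W440.Leh

/-- the completely multiplicative function `m ↦ 1 / m` -/
noncomputable def invHom : ℕ →* ℝ where
  toFun m := (m : ℝ)⁻¹
  map_one' := by simp
  map_mul' a b := by push_cast; rw [mul_inv]

theorem sum_factored (S Q : Finset ℕ) (hS : ∀ s ∈ S, s.Prime)
    (hQ : ∀ m ∈ Q, m ∈ Nat.factoredNumbers S) :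
    ∑ m ∈ Q, (m : ℝ)⁻¹ ≤ ∏ s ∈ S, (1 - (s : ℝ)⁻¹)⁻¹ := by
  classical
  have h := (EulerProduct.summable_and_hasSum_factoredNumbers_prod_filter_prime_geometric
    (f := invHom) (by
      intro p hp
      change ‖(p : ℝ)⁻¹‖ < 1
      have h1 : (1 : ℝ) < p := by exact_mod_cast hp.one_lt
      rw [Real.norm_of_nonneg (by positivity)]
      exact inv_lt_one_of_one_lt₀ h1) S).2
  rw [Finset.filter_true_of_mem hS] at h
  have h2 := sum_le_hasSum (Q.subtype (fun m => m ∈ Nat.factoredNumbers S))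
    (fun i _ => by change (0 : ℝ) ≤ ((i : ℕ) : ℝ)⁻¹; positivity) h
  refine le_trans (le_of_eq ?_) h2
  exact (Finset.sum_subtype_of_mem (fun m : ℕ => (m : ℝ)⁻¹) hQ).symm

theorem sum_factored_mul (S Q : Finset ℕ) (d : ℕ) (hd : 0 < d) (hS : ∀ s ∈ S, s.Prime)
    (hQ : ∀ m ∈ Q, d ∣ m ∧ m ∈ Nat.factoredNumbers S) :
    ∑ m ∈ Q, (m : ℝ)⁻¹ ≤ (d : ℝ)⁻¹ * ∏ s ∈ S, (1 - (s : ℝ)⁻¹)⁻¹ := by
  classical
  have h1 : ∑ m ∈ Q, (m : ℝ)⁻¹ = (d : ℝ)⁻¹ * ∑ m ∈ Q.image (fun m => m / d), (m : ℝ)⁻¹ := by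
    rw [Finset.sum_image, Finset.mul_sum]
    · refine Finset.sum_congr rfl fun m hm => ?_
      obtain ⟨e, he⟩ := (hQ m hm).1
      rw [he, Nat.mul_div_cancel_left _ hd]
      push_cast
      rw [mul_inv]
    · intro a ha b hb hab
      obtain ⟨e, he⟩ := (hQ a ha).1
      obtain ⟨f, hf⟩ := (hQ b hb).1
      simp only at hab
      rw [he, hf, Nat.mul_div_cancel_left _ hd, Nat.mul_div_cancel_left _ hd] at hab
      rw [he, hf, hab]
  rw [h1]
  refine mul_le_mul_of_nonneg_left ?_ (by positivity)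
  refine sum_factored S _ hS ?_
  intro m hm
  obtain ⟨a, ha, rfl⟩ := Finset.mem_image.1 hm
  obtain ⟨⟨e, he⟩, h3⟩ := hQ a ha
  rw [he, Nat.mul_div_cancel_left _ hd]
  exact Nat.mem_factoredNumbers_of_dvd h3 ⟨d, by rw [he, mul_comm]⟩

theorem foldl_sum_le (K : ℕ) (l : List ℕ) : ∀ a : ℕ,
    ((l.foldl (fun a m => a + K / m) a : ℕ) : ℝ) ≤ a + K * (l.map (fun m : ℕ => (m : ℝ)⁻¹)).sum := by
  induction l with
  | nil => intro a; simp
  | cons m l ih =>
    intro a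
    rw [List.foldl_cons, List.map_cons, List.sum_cons]
    refine le_trans (ih _) ?_
    have h1 : ((K / m : ℕ) : ℝ) ≤ (K : ℝ) / m := Nat.cast_div_le
    push_cast
    rw [div_eq_mul_inv] at h1
    linarith [h1, mul_add (K : ℝ) ((m : ℝ)⁻¹) ((l.map (fun m : ℕ => (m : ℝ)⁻¹)).sum)]

theorem foldl_prod_ge (l : List ℕ) : ∀ a : ℕ,
    (a : ℝ) * (l.map (fun m : ℕ => 1 + (m : ℝ)⁻¹)).prod ≤
      ((l.foldl (fun a m => a + a / m + 1) a : ℕ) : ℝ) := by
  induction l with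
  | nil => intro a; simp
  | cons m l ih =>
    intro a
    rw [List.foldl_cons, List.map_cons, List.prod_cons]
    refine le_trans ?_ (ih _)
    rw [← mul_assoc]
    refine mul_le_mul_of_nonneg_right ?_ ?_
    · push_cast
      rcases Nat.eq_zero_or_pos m with h0 | h0
      · subst h0
        simp
      · have h1 : a < m * (a / m + 1) := Nat.lt_mul_div_succ a h0
        have h2 : (a : ℝ) < m * ((a / m : ℕ) + 1) := by exact_mod_cast h1
        have h3 : (0 : ℝ) < m := by exact_mod_cast h0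
        have h4 : (a : ℝ) * (m : ℝ)⁻¹ ≤ ((a / m : ℕ) : ℝ) + 1 := by
          rw [← div_eq_mul_inv, div_le_iff₀ h3]
          linarith
        linarith
    · refine List.prod_nonneg ?_
      intro x hx
      obtain ⟨y, _, rfl⟩ := List.mem_map.1 hx
      positivity

theorem prod_mono_subset {I K : Finset ℕ} {f : ℕ → ℝ} (h : I ⊆ K) (h1 : ∀ k ∈ K, 1 ≤ f k) :
    ∏ i ∈ I, f i ≤ ∏ k ∈ K, f k := by
  classical
  rw [← Finset.prod_sdiff h]
  have h2 : 0 ≤ ∏ i ∈ I, f i :=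
    Finset.prod_nonneg fun i hi => le_trans zero_le_one (h1 i (h hi))
  have h3 : 1 ≤ ∏ i ∈ K \ I, f i := by
    have : ∏ i ∈ K \ I, (1 : ℝ) ≤ ∏ i ∈ K \ I, f i :=
      Finset.prod_le_prod (fun _ _ => zero_le_one)
        (fun i hi => h1 i (Finset.mem_sdiff.1 hi).1)
    simpa using this
  nlinarith

theorem prod_le_exp (P : Finset ℕ) (f : ℕ → ℝ) (hf : ∀ p ∈ P, 0 ≤ f p) :
    ∏ p ∈ P, (1 + f p) ≤ Real.exp (∑ p ∈ P, f p) := by
  rw [Real.exp_sum]
  refine Finset.prod_le_prod (fun p hp => by linarith [hf p hp]) (fun p _ => ?_)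
  rw [add_comm]
  exact Real.add_one_le_exp _

theorem pt_prime {p : ℕ} (hp : p.Prime) : pt p = true := by
  unfold pt
  rw [List.all_eq_true]
  intro d hd
  have h2 : 2 ≤ d := by
    simp only [List.mem_cons, List.not_mem_nil, or_false] at hd
    omega
  rw [Bool.or_eq_true]
  by_cases h : p % d = 0
  · right
    rcases (Nat.dvd_prime hp).1 (Nat.dvd_of_mod_eq_zero h) with h3 | h3
    · omega
    · rw [h3]; simp
  · left
    simpa using h

end Pool.Agent.W440.Leh
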