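import Pool.Agent.W440.Leh.Bound
import Pool.Agent.H95R2.Leh.FamLeh

set_option autoImplicit false

/-!
# Lehmer numbers `n` with `3 ∣ n - 1` and `n - 1` with at most three prime factors
-/

open Finset

namespace Pool.Agent.W440.Leh

open Pool.Agent.H95R2.Leh (Leh leh_basic leh_k)

theorem totient_eq {n : ℕ} (hn : Squarefree n) :
    n.totient = ∏ p ∈ n.primeFactors, (p - 1) := by
  have h := Nat.totient_mul_prod_primeFactors n
  rw [Nat.prod_primeFactors_of_squarefree hn] at h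
  have h0 : 0 < n := Nat.pos_of_ne_zero hn.ne_zero
  exact Nat.eq_of_mul_eq_mul_left h0 (by rw [← h, mul_comm])

theorem lt_prod {n k : ℕ} (hn : Squarefree n) (hn1 : 1 < n) (hk : n - 1 = k * n.totient) :
    (k : ℝ) < ∏ p ∈ n.primeFactors, (1 + ((p : ℝ) - 1)⁻¹) := by
  have hφ : 0 < n.totient := Nat.totient_pos.2 (by omega)
  have hφ' : (0 : ℝ) < n.totient := by exact_mod_cast hφ
  have h1 : (∏ p ∈ n.primeFactors, (1 + ((p : ℝ) - 1)⁻¹)) * n.totient = n := by
    have e1 : (n.totient : ℝ) = ∏ p ∈ n.primeFactors, ((p : ℝ) - 1) := by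
      rw [totient_eq hn]
      push_cast
      refine Finset.prod_congr rfl fun p hp => ?_
      have : 1 < p := (Nat.prime_of_mem_primeFactors hp).one_lt
      rw [Nat.cast_sub this.le]
      simp
    have e2 : (n : ℝ) = ∏ p ∈ n.primeFactors, (p : ℝ) := by
      conv_lhs => rw [← Nat.prod_primeFactors_of_squarefree hn]
      push_cast
      rfl
    rw [e1, ← Finset.prod_mul_distrib, e2]
    refine Finset.prod_congr rfl fun p hp => ?_
    have : 1 < p := (Nat.prime_of_mem_primeFactors hp).one_lt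
    have h3 : (1 : ℝ) < p := by exact_mod_cast this
    have h4 : (p : ℝ) - 1 ≠ 0 := by linarith
    field_simp
    ring
  have h2 : n = k * n.totient + 1 := by omega
  have h3 : (n : ℝ) = k * n.totient + 1 := by exact_mod_cast h2
  by_contra hcon
  push Not at hcon
  have h4 := mul_le_mul_of_nonneg_right hcon hφ'.le
  rw [h1, h3] at h4
  linarith

theorem sub_one_dvd {n p : ℕ} (hL : Leh n) (hp : p ∈ n.primeFactors) : p - 1 ∣ n - 1 := by
  have h1 := Nat.totient_dvd_of_dvd (Nat.dvd_of_mem_primeFactors hp)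
  rw [Nat.totient_prime (Nat.prime_of_mem_primeFactors hp)] at h1
  exact dvd_trans h1 hL.2.2

theorem not_dvd_sub_one {n p : ℕ} (hL : Leh n) (hp : p.Prime) (h : p ∣ n) : ¬ p ∣ n - 1 := by
  intro h1
  have h2 : p ∣ n - (n - 1) := Nat.dvd_sub h h1
  have h3 : n - (n - 1) = 1 := by have := hL.1; omega
  rw [h3] at h2
  exact hp.one_lt.ne' (Nat.dvd_one.1 h2)

/-- the quadratic residue condition -/
theorem qr_of {n p r X Y Z : ℕ} (hp : 0 < p) (hpn : p ∣ n) (h1 : 1 ≤ n)
    (hn : n - 1 = 2 ^ X * 3 ^ Y * r ^ Z) :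
    qr p (2 ^ (X % 2) * 3 ^ (Y % 2) * r ^ (Z % 2)) = true := by
  unfold qr
  rw [List.any_eq_true]
  set t0 := 2 ^ (X / 2) * 3 ^ (Y / 2) * r ^ (Z / 2) with ht0
  refine ⟨t0 % p, List.mem_range.2 (Nat.mod_lt _ hp), ?_⟩
  rw [beq_iff_eq]
  have e1 : t0 * t0 * (2 ^ (X % 2) * 3 ^ (Y % 2) * r ^ (Z % 2)) + 1 = n := by
    have a1 : (2 : ℕ) ^ X = 2 ^ (X / 2) * 2 ^ (X / 2) * 2 ^ (X % 2) := by
      rw [← pow_add, ← pow_add]; congr 1; omega
    have a2 : (3 : ℕ) ^ Y = 3 ^ (Y / 2) * 3 ^ (Y / 2) * 3 ^ (Y % 2) := by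
      rw [← pow_add, ← pow_add]; congr 1; omega
    have a3 : r ^ Z = r ^ (Z / 2) * r ^ (Z / 2) * r ^ (Z % 2) := by
      rw [← pow_add, ← pow_add]; congr 1; omega
    have a4 : n = 2 ^ X * 3 ^ Y * r ^ Z + 1 := by omega
    rw [a4, a1, a2, a3, ht0]
    ring
  have e2 : (t0 % p * (t0 % p) * (2 ^ (X % 2) * 3 ^ (Y % 2) * r ^ (Z % 2)) + 1) ≡
      (t0 * t0 * (2 ^ (X % 2) * 3 ^ (Y % 2) * r ^ (Z % 2)) + 1) [MOD p] :=
    Nat.ModEq.add_right _ (Nat.ModEq.mul_right _
      (Nat.ModEq.mul (Nat.mod_modEq _ _) (Nat.mod_modEq _ _)))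
  rw [e1] at e2
  have e3 : n % p = 0 := Nat.mod_eq_zero_of_dvd hpn
  have e4 : (t0 % p * (t0 % p) * (2 ^ (X % 2) * 3 ^ (Y % 2) * r ^ (Z % 2)) + 1) % p = n % p := e2
  rw [e4, e3]

theorem prod_23r {r : ℕ} (h5 : 5 ≤ r) :
    ∏ s ∈ ({2, 3, r} : Finset ℕ), (1 - (s : ℝ)⁻¹)⁻¹ = 3 * (r : ℝ) / (r - 1) := by
  have hr : (5 : ℝ) ≤ r := by exact_mod_cast h5
  rw [Finset.prod_insert (by simp; omega), Finset.prod_insert (by simp; omega),
    Finset.prod_singleton]
  have h1 : (r : ℝ) - 1 ≠ 0 := by linarith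
  have h2 : (r : ℝ) ≠ 0 := by linarith
  have h3 : (1 - (r : ℝ)⁻¹)⁻¹ = r / (r - 1) := by
    rw [← one_div, div_eq_div_iff (by
      intro h
      have : (r : ℝ) * (1 - (r : ℝ)⁻¹) = 0 := by rw [h, mul_zero]
      rw [mul_sub, mul_inv_cancel₀ h2] at this
      exact h1 (by linarith)) h1]
    have : (r : ℝ) * (1 - (r : ℝ)⁻¹) = r - 1 := by
      rw [mul_sub, mul_inv_cancel₀ h2, mul_one]
    rw [this, one_mul]
  rw [h3]
  push_cast
  ring

theorem fin_lt {A T : ℕ} (c2 : T ≤ 10 ^ 9)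
    (c3 : A * (4 * 10 ^ 18 + 4 * T * 10 ^ 9 + 3 * T * T) < 8 * 10 ^ 27) :
    (A : ℝ) / 10 ^ 9 * Real.exp (T / 10 ^ 9) < 2 := by
  have hT1 : (T : ℝ) / 10 ^ 9 ≤ 1 := by
    rw [div_le_one (by norm_num)]
    exact_mod_cast c2
  have he := exp_le_quad (t := (T : ℝ) / 10 ^ 9) (by positivity) hT1
  have c3' : (A : ℝ) * (4 * 10 ^ 18 + 4 * T * 10 ^ 9 + 3 * T * T) < 8 * 10 ^ 27 := by
    exact_mod_cast c3
  have h1 : (A : ℝ) / 10 ^ 9 * Real.exp (T / 10 ^ 9) ≤
      (A : ℝ) / 10 ^ 9 * (1 + (T : ℝ) / 10 ^ 9 + 3 * ((T : ℝ) / 10 ^ 9) ^ 2 / 4) :=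
    mul_le_mul_of_nonneg_left he (by positivity)
  refine lt_of_le_of_lt h1 ?_
  have h2 : (A : ℝ) / 10 ^ 9 * (1 + (T : ℝ) / 10 ^ 9 + 3 * ((T : ℝ) / 10 ^ 9) ^ 2 / 4) =
      (A : ℝ) * (4 * 10 ^ 18 + 4 * T * 10 ^ 9 + 3 * T * T) / (4 * 10 ^ 27) := by
    field_simp
  rw [h2, div_lt_iff₀ (by norm_num)]
  linarith

theorem cast_T {r T s : ℕ} (hr : 5 ≤ r) (c1 : 3 * r * 10 ^ 9 ≤ 2 * (r - 1) * (T + s)) :
    3 * (r : ℝ) / (2 * (r - 1)) * 10 ^ 9 ≤ T + s := by
  obtain ⟨q, rfl⟩ : ∃ q, r = q + 1 := ⟨r - 1, by omega⟩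
  rw [Nat.add_sub_cancel] at c1
  have c1' : (3 * ((q : ℝ) + 1) * 10 ^ 9 : ℝ) ≤ 2 * (q : ℝ) * (T + s) := by exact_mod_cast c1
  have hq : (0 : ℝ) < q := by
    have : 0 < q := by omega
    exact_mod_cast this
  push_cast
  rw [add_sub_cancel_right, div_mul_eq_mul_div, div_le_iff₀ (by linarith)]
  linarith

theorem three_facts {n r : ℕ} (hL : Leh n) (hrn : ¬ r ∣ n)
    (hsub : (n - 1).primeFactors ⊆ {2, 3, r}) (h3 : 3 ∣ n - 1) :
    ∀ p ∈ n.primeFactors, p.Prime ∧ 5 ≤ p ∧ p ≠ r ∧ (p - 1) ∈ Nat.factoredNumbers {2, 3, r} := by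
  intro p hp
  have hpp := Nat.prime_of_mem_primeFactors hp
  have hpn := Nat.dvd_of_mem_primeFactors hp
  have hodd := (leh_basic hL).2.1
  have h2 : p ≠ 2 := by
    rintro rfl
    rw [← Nat.not_even_iff_odd] at hodd
    exact hodd (even_iff_two_dvd.2 hpn)
  have h3' : p ≠ 3 := by
    rintro rfl
    exact not_dvd_sub_one hL Nat.prime_three hpn h3
  have h4 : p ≠ 4 := by rintro rfl; exact absurd hpp (by norm_num)
  have h5 : 5 ≤ p := by have := hpp.two_le; omega
  refine ⟨hpp, h5, fun h => hrn (h ▸ hpn), ?_⟩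
  rw [Nat.mem_factoredNumbers_iff_primeFactors_subset]
  refine ⟨by omega, ?_⟩
  refine le_trans (Nat.primeFactors_mono (sub_one_dvd hL hp) ?_) hsub
  have := hL.1
  omega

theorem three_small {n r : ℕ} (hL : Leh n) (hrn : ¬ r ∣ n)
    (hr : r ∈ [5, 7, 11, 13, 17, 19, 23, 29, 31, 37, 41, 43, 47, 53])
    (hsub : (n - 1).primeFactors ⊆ {2, 3, r}) (h3 : 3 ∣ n - 1) : False := by
  have h5 : 5 ≤ r ∧ r.Prime := by
    simp only [List.mem_cons, List.not_mem_nil, or_false] at hr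
    rcases hr with h | h | h | h | h | h | h | h | h | h | h | h | h | h <;> rw [h] <;> norm_num
  obtain ⟨k, hk2, hk, _⟩ := leh_k hL
  have hsq := (leh_basic hL).1
  have hn1 := hL.1
  have hF := lt_prod hsq hn1 hk
  have hfacts := three_facts hL hrn hsub h3
  -- exponents
  obtain ⟨X, Y, Z, hXYZ⟩ : ∃ X Y Z : ℕ, n - 1 = 2 ^ X * 3 ^ Y * r ^ Z := by
    have h0 : n - 1 ≠ 0 := by omega
    refine ⟨(n - 1).factorization 2, (n - 1).factorization 3, (n - 1).factorization r, ?_⟩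
    conv_lhs => rw [← Nat.prod_factorization_pow_eq_self h0]
    rw [Finsupp.prod_of_support_subset _ (s := {2, 3, r}) (by simpa using hsub) _ (by simp)]
    rw [Finset.prod_insert (by simp; omega), Finset.prod_insert (by simp; omega),
      Finset.prod_singleton, mul_assoc]
  set W := (6 * r) ^ 10 with hW
  set c := 2 ^ (X % 2) * 3 ^ (Y % 2) * r ^ (Z % 2) with hc
  set T := tHi W 1024 r with hT
  have hm2 : ∀ a : ℕ, a % 2 ∈ [0, 1] := by
    intro a
    have : a % 2 = 0 ∨ a % 2 = 1 := by omega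
    rcases this with h | h <;> rw [h] <;> simp
  have hchk := chk_small r hr (X % 2) (hm2 X) (Y % 2) (hm2 Y) (Z % 2) (hm2 Z)
  rw [← hW, ← hc, ← hT] at hchk
  unfold chk at hchk
  rw [Bool.and_eq_true, Bool.and_eq_true, decide_eq_true_eq, decide_eq_true_eq,
    decide_eq_true_eq] at hchk
  obtain ⟨⟨c1, c2⟩, c3⟩ := hchk
  have hr1 : (1 : ℝ) < r := by
    have : 1 < r := by omega
    exact_mod_cast this
  have hb := bound W 1024 r 100 c T {2, 3, r} n.primeFactors (3 * (r : ℝ) / (2 * (r - 1)))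
    (by
      intro s hs
      simp only [Finset.mem_insert, Finset.mem_singleton] at hs
      rcases hs with h | h | h
      · rw [h]; exact Nat.prime_two
      · rw [h]; exact Nat.prime_three
      · rw [h]; exact h5.2)
    (pow_ne_zero _ (by omega))
    (by
      intro m hm
      refine factored_of_dvd_pow (W0 := 6 * r) (e := 10) ?_ hm
      rw [Nat.mem_factoredNumbers']
      intro q hq hq6
      rw [show 6 * r = 2 * 3 * r by ring] at hq6
      rcases (hq.dvd_mul).1 hq6 with h | h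
      · rcases (hq.dvd_mul).1 h with h | h
        · rw [(Nat.prime_dvd_prime_iff_eq hq Nat.prime_two).1 h]; simp
        · rw [(Nat.prime_dvd_prime_iff_eq hq Nat.prime_three).1 h]; simp
      · rw [(Nat.prime_dvd_prime_iff_eq hq h5.2).1 h]; simp)
    (by
      intro m hm hlt
      refine dvd_pow_of_factored (by omega) ?_ hm hlt
      intro s hs
      simp only [Finset.mem_insert, Finset.mem_singleton] at hs
      rcases hs with h | h | h
      · rw [h]; exact ⟨3 * r, by ring⟩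
      · rw [h]; exact ⟨2 * r, by ring⟩
      · rw [h]; exact ⟨6, by ring⟩)
    (by
      rw [prod_23r h5.1]
      have : (r : ℝ) - 1 ≠ 0 := by linarith
      apply le_of_eq
      field_simp)
    hfacts
    (by
      intro p hp _
      exact qr_of (Nat.prime_of_mem_primeFactors hp).pos (Nat.dvd_of_mem_primeFactors hp)
        (by omega) hXYZ)
    (cast_T h5.1 c1)
  have hlast := fin_lt c2 c3
  have hk2' : (2 : ℝ) ≤ k := by exact_mod_cast hk2
  linarith

theorem three_big {n r : ℕ} (hL : Leh n) (hrn : ¬ r ∣ n) (hr : r.Prime) (h59 : 59 ≤ r)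
    (hsub : (n - 1).primeFactors ⊆ {2, 3, r}) (h3 : 3 ∣ n - 1) : False := by
  classical
  obtain ⟨k, hk2, hk, _⟩ := leh_k hL
  have hsq := (leh_basic hL).1
  have hn1 := hL.1
  have hF := lt_prod hsq hn1 hk
  have hfacts := three_facts hL hrn hsub h3
  have hr59 : (59 : ℝ) ≤ r := by exact_mod_cast h59
  set P := n.primeFactors with hP
  have hinj : ∀ a ∈ P, ∀ b ∈ P, a - 1 = b - 1 → a = b := by
    intro a ha b hb hab
    have h1 := (hfacts a ha).1.one_lt
    have h2 := (hfacts b hb).1.one_lt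
    omega
  -- the primes with `r ∣ p - 1`
  have hA : ∏ p ∈ P.filter (fun p => r ∣ p - 1), (1 + ((p : ℝ) - 1)⁻¹) ≤ Real.exp (3 / 116) := by
    have h0 : ∀ p ∈ P.filter (fun p => r ∣ p - 1), 0 ≤ ((p : ℝ) - 1)⁻¹ := by
      intro p hp
      have h1 := (hfacts p (Finset.mem_of_mem_filter p hp)).1.one_lt
      have h2 : (1 : ℝ) < p := by exact_mod_cast h1
      exact inv_nonneg.2 (by linarith)
    refine le_trans (prod_le_exp _ _ h0) ?_
    rw [Real.exp_le_exp]
    have e1 : ∑ p ∈ P.filter (fun p => r ∣ p - 1), ((p : ℝ) - 1)⁻¹ =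
        ∑ m ∈ (P.filter (fun p => r ∣ p - 1)).image (fun p : ℕ => (p - 1 : ℕ)), ((m : ℕ) : ℝ)⁻¹ := by
      rw [Finset.sum_image]
      · refine Finset.sum_congr rfl fun p hp => ?_
        have h1 := (hfacts p (Finset.mem_of_mem_filter p hp)).1.one_lt
        rw [Nat.cast_sub h1.le]
        simp
      · intro a ha b hb hab
        exact hinj a (Finset.mem_of_mem_filter a ha) b (Finset.mem_of_mem_filter b hb) hab
    rw [e1]
    refine le_trans (sum_factored_mul {2, 3, r} _ (2 * r) (by positivity) ?_ ?_) ?_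
    · intro s hs
      simp only [Finset.mem_insert, Finset.mem_singleton] at hs
      rcases hs with h | h | h
      · rw [h]; exact Nat.prime_two
      · rw [h]; exact Nat.prime_three
      · rw [h]; exact hr
    · intro m hm
      obtain ⟨p, hp, rfl⟩ := Finset.mem_image.1 hm
      obtain ⟨hpP, hrp⟩ := Finset.mem_filter.1 hp
      refine ⟨?_, (hfacts p hpP).2.2.2⟩
      refine Nat.Coprime.mul_dvd_of_dvd_of_dvd ?_ ?_ hrp
      · rw [Nat.coprime_primes Nat.prime_two hr]; omega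
      · have h1 := (hfacts p hpP).1.eq_two_or_odd
        have h2 := (hfacts p hpP).2.1
        omega
    · rw [prod_23r (by omega)]
      push_cast
      have h1 : (r : ℝ) - 1 ≠ 0 := by linarith
      have h2 : (r : ℝ) ≠ 0 := by linarith
      have h3 : (2 * (r : ℝ))⁻¹ * (3 * r / (r - 1)) = 3 / (2 * (r - 1)) := by
        field_simp
      rw [h3, div_le_div_iff₀ (by linarith) (by norm_num)]
      linarith
  -- the other primes
  have hB := bound (6 ^ 12) 4096 0 0 0 3209013 {2, 3} (P.filter (fun p => ¬ r ∣ p - 1)) (3 / 2)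
    (by
      intro s hs
      simp only [Finset.mem_insert, Finset.mem_singleton] at hs
      rcases hs with h | h
      · rw [h]; exact Nat.prime_two
      · rw [h]; exact Nat.prime_three)
    (by positivity)
    (by
      intro m hm
      refine factored_of_dvd_pow (W0 := 6) (e := 12) ?_ hm
      rw [Nat.mem_factoredNumbers']
      intro q hq hq6
      rw [show 6 = 2 * 3 by norm_num] at hq6
      rcases (hq.dvd_mul).1 hq6 with h | h
      · rw [(Nat.prime_dvd_prime_iff_eq hq Nat.prime_two).1 h]; simp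
      · rw [(Nat.prime_dvd_prime_iff_eq hq Nat.prime_three).1 h]; simp)
    (by
      intro m hm hlt
      refine dvd_pow_of_factored (by norm_num) ?_ hm hlt
      intro s hs
      simp only [Finset.mem_insert, Finset.mem_singleton] at hs
      rcases hs with h | h
      · rw [h]; norm_num
      · rw [h]; norm_num)
    (by
      rw [Finset.prod_insert (by simp), Finset.prod_singleton]
      norm_num)
    (by
      intro p hp
      obtain ⟨hpP, hrp⟩ := Finset.mem_filter.1 hp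
      obtain ⟨h1, h2, _, h4⟩ := hfacts p hpP
      refine ⟨h1, h2, by omega, ?_⟩
      rw [Nat.mem_factoredNumbers'] at h4 ⊢
      intro q hq hqp
      have h5 := h4 q hq hqp
      simp only [Finset.mem_insert, Finset.mem_singleton] at h5 ⊢
      rcases h5 with h | h | h
      · left; exact h
      · right; exact h
      · exact absurd (h ▸ hqp) hrp)
    (by
      intro p hp h
      have h2 := (hfacts p (Finset.mem_of_mem_filter p hp)).2.1
      omega)
    (by
      rw [sumLo_big]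
      norm_num)
  rw [prodHi_big] at hB
  have hsplit : ∏ p ∈ P, (1 + ((p : ℝ) - 1)⁻¹) =
      (∏ p ∈ P.filter (fun p => r ∣ p - 1), (1 + ((p : ℝ) - 1)⁻¹)) *
        ∏ p ∈ P.filter (fun p => ¬ r ∣ p - 1), (1 + ((p : ℝ) - 1)⁻¹) := by
    rw [Finset.prod_filter_mul_prod_filter_not]
  have h0 : 0 ≤ ∏ p ∈ P.filter (fun p => ¬ r ∣ p - 1), (1 + ((p : ℝ) - 1)⁻¹) := by
    refine Finset.prod_nonneg fun p hp => ?_
    have h1 := (hfacts p (Finset.mem_of_mem_filter p hp)).1.one_lt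
    have h2 : (1 : ℝ) < p := by exact_mod_cast h1
    have h3 : 0 ≤ ((p : ℝ) - 1)⁻¹ := inv_nonneg.2 (by linarith)
    linarith
  have h1 := mul_le_mul hA hB h0 (Real.exp_pos _).le
  rw [← hsplit] at h1
  have h2 : Real.exp (3 / 116) * (((1932957158 : ℕ) : ℝ) / 10 ^ 9 *
      Real.exp (((3209013 : ℕ) : ℝ) / 10 ^ 9)) =
      1932957158 / 10 ^ 9 * Real.exp (3 / 116 + 3209013 / 10 ^ 9) := by
    rw [Real.exp_add]
    push_cast
    ring
  rw [h2] at h1
  have h4 := exp_le_quad (t := (3 / 116 + 3209013 / 10 ^ 9 : ℝ)) (by norm_num) (by norm_num)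
  have h5 : (1932957158 / 10 ^ 9 : ℝ) * Real.exp (3 / 116 + 3209013 / 10 ^ 9) < 2 := by
    refine lt_of_le_of_lt (mul_le_mul_of_nonneg_left h4 (by norm_num)) ?_
    norm_num
  have hk2' : (2 : ℝ) ≤ k := by exact_mod_cast hk2
  linarith

theorem three {n r : ℕ} (hL : Leh n) (hrn : ¬ r ∣ n) (hr : r.Prime) (h5 : 5 ≤ r)
    (hsub : (n - 1).primeFactors ⊆ {2, 3, r}) (h3 : 3 ∣ n - 1) : False := by
  by_cases h : 59 ≤ r
  · exact three_big hL hrn hr h hsub h3
  · refine three_small hL hrn ?_ hsub h3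
    push Not at h
    interval_cases r <;> first | decide | (exfalso; revert hr; norm_num)

end Pool.Agent.W440.Leh
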